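import Pool.Agent.Lib.MP_a1de5b_al.Final

/-!
# The group `G` is hyperfinite
-/

namespace Pool.Agent.Lib.MP_a1de5b_al.H74

open Function Ordinal

/-- The elements of `G` supported at the coordinate `k`. -/
noncomputable def C (k : ℕ) : Subgroup G where
  carrier := {g | ∀ m, m ≠ k → g.1 m = 1}
  one_mem' := fun m _ => rfl
  mul_mem' := by
    intro a b ha hb m hm
    change a.1 m * b.1 m = 1
    rw [ha m hm, hb m hm, mul_one]
  inv_mem' := by
    intro a ha m hm
    change (a.1 m)⁻¹ = 1
    rw [ha m hm, inv_one]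

lemma mem_C {k : ℕ} {g : G} : g ∈ C k ↔ ∀ m, m ≠ k → g.1 m = 1 := Iff.rfl

instance (k : ℕ) : (C k).Normal := by
  constructor
  intro n hn g m hm
  change g.1 m * n.1 m * (g.1 m)⁻¹ = 1
  rw [hn m hm, mul_one, mul_inv_cancel]

instance (k : ℕ) : Finite (C k) := by
  apply Finite.of_injective (fun g : C k => g.1.1 k)
  intro a b hab
  apply Subtype.ext
  apply Subtype.ext
  funext m
  by_cases hm : m = k
  · subst hm; exact hab
  · rw [a.2 m hm, b.2 m hm]

/-- The elements of `P` supported in `[0, n)`. -/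
noncomputable def V (n : ℕ) : Subgroup P := (trunc n).eqLocus (MonoidHom.id P)

lemma mem_V {n : ℕ} {b : P} : b ∈ V n ↔ trunc n b = b := Iff.rfl

instance (n : ℕ) : Finite (V n) := by
  apply Finite.of_injective (fun b : V n => fun i : Fin n => b.1 i)
  intro a b hab
  apply Subtype.ext
  funext i
  rw [← mem_V.1 a.2, ← mem_V.1 b.2, trunc_apply, trunc_apply]
  by_cases hi : i < n
  · rw [if_pos hi, if_pos hi]
    exact congrFun hab ⟨i, hi⟩
  · rw [if_neg hi, if_neg hi]

/-- The elements of `G` whose image in `P` is supported in `[0, n)`. -/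
noncomputable def D (n : ℕ) : Subgroup G := (V n).comap (χP.comp G.subtype)

lemma mem_D {n : ℕ} {g : G} : g ∈ D n ↔ trunc n (χP g.1) = χP g.1 := Iff.rfl

instance (n : ℕ) : (D n).Normal := by
  unfold D
  infer_instance

lemma D_relIndex (n m : ℕ) : (D n).relIndex (D m) ≠ 0 := by
  unfold D
  rw [Subgroup.relIndex_comap]
  intro h
  have h1 : (V n).relIndex (V m) = 0 :=
    Subgroup.relIndex_eq_zero_of_le_right (Subgroup.map_comap_le _ _) h
  exact Subgroup.index_ne_zero_of_finite h1

lemma D_zero_le : D 0 ≤ ⨆ k, C k := by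
  have key : ∀ n, ∀ w : G, χP w.1 = 1 → (∀ m ≥ n, w.1 m = 1) → w ∈ ⨆ k, C k := by
    intro n
    induction n with
    | zero =>
      intro w _ hw
      have : w = 1 := by
        apply Subtype.ext
        funext m
        exact hw m (Nat.zero_le m)
      rw [this]
      exact Subgroup.one_mem _
    | succ n ih =>
      intro w hχw hw
      have h1 : χ n (w.1 n) = 1 := by rw [w.2.2.1, hχw, map_one]
      obtain ⟨s, hs⟩ : ∃ s : G, s.1 = Pi.mulSingle n (w.1 n) :=
        ⟨⟨_, E_le_G (n + 1) (mulSingle_mem_E (by omega) h1)⟩, rfl⟩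
      have hsC : s ∈ C n := by
        intro m hm
        rw [hs, Pi.mulSingle_eq_of_ne hm]
      have h2 : w * s⁻¹ ∈ ⨆ k, C k := by
        apply ih
        · change χP (w.1 * s.1⁻¹) = 1
          rw [hs, map_mul, map_inv, χP_mulSingle h1, hχw]; simp
        · intro m hm
          change w.1 m * (s.1 m)⁻¹ = 1
          rw [hs]
          rcases Nat.lt_or_ge n m with h2 | h2
          · rw [hw m (by omega), Pi.mulSingle_eq_of_ne (by omega)]; simp
          · have : m = n := by omega
            subst this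
            rw [Pi.mulSingle_eq_same, mul_inv_cancel]
      have h3 := Subgroup.mul_mem _ h2 (Subgroup.mem_iSup_of_mem n hsC)
      rwa [inv_mul_cancel_right] at h3
  intro g hg
  have hχ : χP g.1 = 1 := by rw [← mem_D.1 hg, trunc_zero]
  obtain ⟨_, _, M, hM⟩ := g.2
  exact key M g hχ (fun m hm => by rw [hM m hm, hχ, map_one])

open Classical in
/-- The family of normal subgroups of `G` from which the series is built. -/
noncomputable def c (o : Ordinal.{0}) : Subgroup G :=
  if h : ∃ k : ℕ, o = k then C h.choose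
  else if h : ∃ k : ℕ, o = ω + k then D (h.choose + 1) else ⊥

lemma c_nat (k : ℕ) : c k = C k := by
  have h : ∃ k' : ℕ, (k : Ordinal.{0}) = k' := ⟨k, rfl⟩
  unfold c
  rw [dif_pos h]
  have h1 : k = h.choose := by exact_mod_cast h.choose_spec
  rw [← h1]

lemma c_omega (k : ℕ) : c (ω + k) = D (k + 1) := by
  have h0 : ¬ ∃ k' : ℕ, (ω + k : Ordinal.{0}) = k' := by
    rintro ⟨k', hk'⟩
    have h1 : (ω : Ordinal.{0}) ≤ ω + k := le_self_add
    rw [hk'] at h1
    exact absurd (natCast_lt_omega0 k') (not_lt.2 h1)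
  have h : ∃ k' : ℕ, (ω + k : Ordinal.{0}) = ω + k' := ⟨k, rfl⟩
  unfold c
  rw [dif_neg h0, dif_pos h]
  have h1 : (k : Ordinal.{0}) = h.choose := add_left_cancel h.choose_spec
  have h2 : k = h.choose := by exact_mod_cast h1
  rw [← h2]

lemma c_cases (o : Ordinal.{0}) : (∃ k : ℕ, o = k) ∨ (∃ k : ℕ, o = ω + k) ∨ c o = ⊥ := by
  by_cases h1 : ∃ k : ℕ, o = k
  · exact Or.inl h1
  · by_cases h2 : ∃ k : ℕ, o = ω + k
    · exact Or.inr (Or.inl h2)
    · right; right
      unfold c
      rw [dif_neg h1, dif_neg h2]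

lemma c_normal (o : Ordinal.{0}) : (c o).Normal := by
  rcases c_cases o with ⟨k, rfl⟩ | ⟨k, rfl⟩ | h
  · rw [c_nat]; infer_instance
  · rw [c_omega]; infer_instance
  · rw [h]; infer_instance

/-- The series. -/
noncomputable def F (o : Ordinal.{0}) : Subgroup G := ⨆ o' : Set.Iio o, c o'

lemma c_le_F {o' o : Ordinal.{0}} (h : o' < o) : c o' ≤ F o :=
  le_iSup (fun o' : Set.Iio o => c o') ⟨o', h⟩

lemma F_mono : Monotone F := by
  intro a b hab
  exact iSup_le (fun o' => c_le_F (lt_of_lt_of_le o'.2 hab))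

lemma F_zero : F 0 = ⊥ := by
  rw [eq_bot_iff]
  apply iSup_le
  rintro ⟨o', h⟩
  have h' : o' < 0 := h
  exact absurd h' (not_lt.2 zero_le)

lemma F_normal (o : Ordinal.{0}) : (F o).Normal := by
  have := fun o' : Set.Iio o => c_normal o'.1
  unfold F
  infer_instance

lemma F_succ_le (o : Ordinal.{0}) : F (o + 1) ≤ F o ⊔ c o := by
  apply iSup_le
  rintro ⟨o', h⟩
  have h' : o' < o + 1 := h
  rcases lt_or_eq_of_le (Order.lt_add_one_iff.1 h') with h1 | h1
  · exact (c_le_F h1).trans le_sup_left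
  · subst h1; exact le_sup_right

lemma F_c (o : Ordinal.{0}) : (F o).relIndex (c o) ≠ 0 := by
  rcases c_cases o with ⟨k, rfl⟩ | ⟨k, rfl⟩ | h
  · rw [c_nat]
    exact Subgroup.index_ne_zero_of_finite
  · rw [c_omega]
    have h1 : D k ≤ F (ω + k) := by
      cases k with
      | zero =>
        refine D_zero_le.trans (iSup_le ?_)
        intro j
        rw [← c_nat]
        exact c_le_F (by simp)
      | succ k =>
        rw [← c_omega]
        apply c_le_F
        have : (k : Ordinal.{0}) < ((k + 1 : ℕ) : Ordinal.{0}) := by exact_mod_cast Nat.lt_succ_self k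
        exact (add_lt_add_iff_left _).2 this
    intro h2
    exact D_relIndex k (k + 1) (Subgroup.relIndex_eq_zero_of_le_left h1 h2)
  · rw [h]
    simp

lemma F_succ (o : Ordinal.{0}) : (F o).relIndex (F (o + 1)) ≠ 0 := by
  have hn := F_normal o
  intro h
  have h1 : (F o).relIndex (F o ⊔ c o) = 0 :=
    Subgroup.relIndex_eq_zero_of_le_right (F_succ_le o) h
  rw [sup_comm, Subgroup.relIndex_sup_right] at h1
  exact F_c o h1

lemma F_lim {o : Ordinal.{0}} (ho : Order.IsSuccLimit o) {x : G} (hx : x ∈ F o) :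
    ∃ o' < o, x ∈ F o' := by
  have h1 : F o ≤ ⨆ o' : Set.Iio o, F o' := by
    apply iSup_le
    rintro ⟨o', h⟩
    have h' : o' < o := h
    have h2 : o' + 1 < o := by
      have := ho.succ_lt h'
      rwa [Order.succ_eq_add_one] at this
    exact (c_le_F (Order.lt_add_one_iff.2 le_rfl)).trans
      (le_iSup (fun o' : Set.Iio o => F o') ⟨o' + 1, h2⟩)
  have hne : Nonempty (Set.Iio o) := ⟨⟨0, by
    have := ho.bot_lt
    simpa using this⟩⟩
  have h2 := (Subgroup.mem_iSup_of_directed (by
    intro a b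
    rcases le_total a.1 b.1 with h | h
    · exact ⟨b, F_mono h, le_rfl⟩
    · exact ⟨a, le_rfl, F_mono h⟩)).1 (h1 hx)
  obtain ⟨o', h⟩ := h2
  exact ⟨o'.1, o'.2, h⟩

lemma F_top : F (ω + ω) = ⊤ := by
  rw [eq_top_iff]
  intro g _
  obtain ⟨n, hn⟩ := g.2.1
  have h1 : g ∈ D (n + 1) := trunc_mono (by omega) hn
  rw [← c_omega] at h1
  exact c_le_F ((add_lt_add_iff_left _).2 (natCast_lt_omega0 n)) h1

end Pool.Agent.Lib.MP_a1de5b_al.H74
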