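import Pool.Agent.Lib.MP_a1de5b_al.Final

/-!
# The group `G` is countable, and it is isomorphic to every locally equivalent group of every
universe
-/

namespace Pool.Agent.Lib.MP_a1de5b_al.H74

open Function Cardinal

universe u

/-- `G` is countable: it is the union of the finite subgroups `E n`. -/
theorem G_countable : Countable G := by
  have h1 : (G : Set W) ⊆ ⋃ n, (E n : Set W) := by
    intro a ha
    obtain ⟨n, hn⟩ := exists_mem_E ha
    exact Set.mem_iUnion.2 ⟨n, hn⟩
  have h2 : (⋃ n, (E n : Set W)).Countable :=
    Set.countable_iUnion (fun n => by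
      have : Finite (E n) := inferInstance
      exact (Set.to_countable (E n : Set W)))
  exact (h2.mono h1).to_subtype

/-- The subgroup generated by a small set is small. -/
lemma small_closure {H : Type u} [Group H] (S : Set H) [Small.{0} S] :
    Small.{0} (Subgroup.closure S) := by
  let f : Shrink.{0} S → H := fun s => ((equivShrink S).symm s : S)
  have h1 : Set.range f = S := by
    ext x
    constructor
    · rintro ⟨s, rfl⟩
      exact ((equivShrink S).symm s).2
    · intro hx
      exact ⟨equivShrink S ⟨x, hx⟩, by simp [f]⟩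
  have h2 : Subgroup.closure S = (FreeGroup.lift f).range := by
    rw [FreeGroup.range_lift_eq_closure, h1]
  rw [h2]
  exact small_of_surjective (FreeGroup.lift f).rangeRestrict_surjective

/-- The subgroup generated by a countable set is countable. -/
lemma countable_closure {H : Type u} [Group H] {S : Set H} (hS : S.Countable) :
    Countable (Subgroup.closure S) := by
  have h0 := hS.to_subtype
  let f : S → H := fun s => s.1
  have h1 : Set.range f = S := Subtype.range_coe
  have h2 : Subgroup.closure S = (FreeGroup.lift f).range := by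
    rw [FreeGroup.range_lift_eq_closure, h1]
  rw [h2]
  exact (FreeGroup.lift f).rangeRestrict_surjective.countable

/-- The image of a finitely generated subgroup is finitely generated. -/
lemma fg_map {H : Type*} {H' : Type*} [Group H] [Group H'] {L : Subgroup H} (hL : L.FG)
    (f : H →* H') : (L.map f).FG := by
  classical
  obtain ⟨S, hS⟩ := hL
  exact ⟨S.image f, by rw [← hS, MonoidHom.map_closure, Finset.coe_image]⟩

/-- A small group that is locally equivalent to `G` is isomorphic to `G`. -/
lemma iso_of_small {H : Type u} [Group H] [Small.{0} H]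
    (h1 : ∀ K : Subgroup G, K.FG → ∃ L : Subgroup H, Nonempty (K ≃* L))
    (h2 : ∀ L : Subgroup H, L.FG → ∃ K : Subgroup G, Nonempty (L ≃* K)) :
    Nonempty (G ≃* H) := by
  let e : Shrink.{0} H ≃* H := Shrink.mulEquiv
  obtain ⟨i⟩ := G_categorical (Shrink.{0} H) (by
    intro K hK
    obtain ⟨L, ⟨j⟩⟩ := h1 K hK
    exact ⟨L.map e.symm.toMonoidHom, ⟨j.trans (e.symm.subgroupMap L)⟩⟩) (by
    intro L hL
    obtain ⟨K, ⟨j⟩⟩ := h2 (L.map e.toMonoidHom) (fg_map hL _)
    exact ⟨K, ⟨(e.subgroupMap L).trans j⟩⟩)
  exact ⟨i.trans e⟩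

/-- **`G` is categorical, for groups in an arbitrary universe.** -/
theorem G_categorical_all (H : Type u) [Group H]
    (h1 : ∀ K : Subgroup G, K.FG → ∃ L : Subgroup H, Nonempty (K ≃* L))
    (h2 : ∀ L : Subgroup H, L.FG → ∃ K : Subgroup G, Nonempty (L ≃* K)) :
    Nonempty (G ≃* H) := by
  have hGc := G_countable
  by_cases hH : Countable H
  · exact iso_of_small h1 h2
  · exfalso
    have h3 : Cardinal.lift.{u} (Cardinal.mk (Cardinal.aleph.{0} 1).out) ≤
        Cardinal.lift.{0} (Cardinal.mk H) := by
      have h4 : Uncountable H := not_countable_iff.1 hH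
      rw [Cardinal.mk_out, Cardinal.lift_aleph, Ordinal.lift_one, Cardinal.aleph_one_le_iff,
        Cardinal.lift_uzero]
      exact Cardinal.aleph0_lt_mk_iff.2 h4
    obtain ⟨α⟩ := Cardinal.lift_mk_le'.1 h3
    -- a countable subgroup into which all finitely generated subgroups of `G` embed
    have h5 : ∀ S : Finset G, ∃ L : Subgroup H, Nonempty (Subgroup.closure (S : Set G) ≃* L) :=
      fun S => h1 _ ⟨S, rfl⟩
    choose L hL using h5
    have hLc : ∀ S, (L S : Set H).Countable := by
      intro S
      obtain ⟨i⟩ := hL S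
      exact (i.symm.injective.countable : Countable (L S)).to_set
    have hUc : (⋃ S, (L S : Set H)).Countable := Set.countable_iUnion hLc
    have := hUc.to_subtype
    have hUs : Small.{0} (⋃ S, (L S : Set H) : Set H) := inferInstance
    have hαs : Small.{0} (Set.range α) := inferInstance
    have hs : Small.{0} ((⋃ S, (L S : Set H)) ∪ Set.range α : Set H) := inferInstance
    have hs2 := small_closure ((⋃ S, (L S : Set H)) ∪ Set.range α)
    obtain ⟨H', hH'⟩ : ∃ H' : Subgroup H,
        H' = Subgroup.closure ((⋃ S, (L S : Set H)) ∪ Set.range α) := ⟨_, rfl⟩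
    rw [← hH'] at hs2
    have hLH : ∀ S, L S ≤ H' := by
      intro S x hx
      rw [hH']
      exact Subgroup.subset_closure (Or.inl (Set.mem_iUnion.2 ⟨S, hx⟩))
    obtain ⟨i⟩ := iso_of_small (H := H') (by
      rintro K ⟨S, rfl⟩
      obtain ⟨j⟩ := hL S
      exact ⟨(L S).subgroupOf H', ⟨j.trans (Subgroup.subgroupOfEquivOfLe (hLH S)).symm⟩⟩) (by
      intro K hK
      obtain ⟨K', ⟨j⟩⟩ := h2 (K.map H'.subtype) (fg_map hK _)
      exact ⟨K', ⟨(K.equivMapOfInjective H'.subtype Subtype.val_injective).trans j⟩⟩)
    have hH'c : Countable H' := i.symm.injective.countable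
    have hαc : Countable (Cardinal.aleph.{0} 1).out := by
      have h6 : ∀ a, α a ∈ H' := by
        intro a
        rw [hH']
        exact Subgroup.subset_closure (Or.inr ⟨a, rfl⟩)
      have h7 : Injective (fun a => (⟨α a, h6 a⟩ : H')) := by
        intro a b hab
        exact α.injective (congrArg Subtype.val hab)
      exact h7.countable
    have h8 := Cardinal.mk_le_aleph0_iff.2 hαc
    rw [Cardinal.mk_out] at h8
    exact absurd (Cardinal.aleph_one_le_iff.1 le_rfl) (not_lt.2 h8)

end Pool.Agent.Lib.MP_a1de5b_al.H74
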